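import Pool.Agent.V11134.RW.Final

/-!
# MP_e47ea7_co: rainbow-free weakly rainbow saturated graphs can need more edges
-/

set_option autoImplicit false

namespace Pool.Agent.Results.MP_e47ea7_co.StarsDiffer

open Pool.Agent.V11134.RW

/-- For the star `K_{1,s}` with `s ≥ 4` and every `n ≥ s² + s` the weak rainbow saturation number is
strictly smaller than its version for rainbow `K_{1,s}`-free starting graphs. -/
theorem result : ∀ s : ℕ, 4 ≤ s → ∀ n : ℕ, s ^ 2 + s ≤ n →
    rwsat n (completeBipartiteGraph (Fin 1) (Fin s)) <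
      rwsatStar n (completeBipartiteGraph (Fin 1) (Fin s)) := by
  intro s hs n hn
  have hupper : rwsat n (K1 s) ≤ ((G0 n s).edgeSet.ncard : ℕ∞) := by
    unfold rwsat
    refine iInf_le_of_le (G0 n s) (iInf_le_of_le (code n) (iInf_le_of_le ?_ le_rfl))
    exact weaklySat_G0 (by omega) (by nlinarith)
  have hlower : ((G0 n s).edgeSet.ncard + 1 : ℕ∞) ≤ rwsatStar n (K1 s) := by
    unfold rwsatStar
    refine le_iInf (fun G => le_iInf (fun χ => le_iInf (fun h => ?_)))
    have h1 := lower hs hn h.1 h.2
    have h2 := ncard_G0 n s (by omega)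
    have h3 : (G0 n s).edgeSet.ncard + 1 ≤ G.edgeSet.ncard := by omega
    exact_mod_cast h3
  refine lt_of_le_of_lt hupper (lt_of_lt_of_le ?_ hlower)
  exact_mod_cast Nat.lt_succ_self _

end Pool.Agent.Results.MP_e47ea7_co.StarsDiffer
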